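import Pool.Agent.J4.H6.FR.Fin

/-!
# The Tate conjecture for Fermat varieties: reduction to finitely many classes

Let `p` be a prime and `S` a finite set of primes not containing `p`. The Fermat varieties
`x_0 ^ m + ... + x_(n+1) ^ m = 0` in characteristic `p`, of all degrees `m` whose prime divisors lie in
`S` and of all even dimensions `n`, have infinitely many Tate classes. By Weil and Stickelberger they
are spanned, apart from the powers of the hyperplane classes, by the lines of the Tate characters
`IsTate p m s` with `n + 2` entries. The lines of the pairs `{a, -a}` and, by induction, of unions are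
algebraic by the inductive structure of Fermat varieties (Shioda, Katsura); those with four entries by
Tate's theorem on divisors (a Fermat surface is dominated by a product of two curves); those of the
standard characters by Aoki and Shioda; removing a pair preserves algebraicity; the line of the
character `N s` of degree `N m` is algebraic if and only if that of `s` is.

The theorem (case `md = False`): there is one degree `M = 2 ^ k * ∏ q`, the product being over the odd
primes of `S` and `k = 0` if `2` is not in `S`, and there are Tate characters `c n` of degree `M`, one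
for each number `n` in the finite set `unsettled md p S` of squarefree odd numbers greater than one with
prime divisors in `S`, such that every Tate character of every degree `m` with prime divisors in `S`
becomes, after multiplication by some `N` prime to `p`, generated by characters with four entries,
standard characters and the multiples of the `c n`. So the Tate conjecture for all these infinitely many
varieties, over all fields finitely generated over the prime field of characteristic `p`, is equivalent
to the algebraicity of the finitely many lines of the `c n` on Fermat varieties of the one degree `M`.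
There are at most `2 ^ r - 1` of them, where `r` is the number of odd primes in `S`: one class is enough
if `S` consists of `2` and an odd prime. For odd degrees `m` the theorem reduces the Tate conjecture for
the degree `m` to the squarefree degree, the product of the primes dividing `m`.

The number `n` is settled, and needs no class, if `-1` is a power of `p` modulo `n`, or if Jacobi
symbols or squares force the relevant parity to be even. In the case `md = True` of the theorem the
modular Tate characters (those which are unions of sets of exponents of representations of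
`PSL (2, ℤ)` with congruence kernel, and of residues killed by twelve) are also admitted as
generators. Then more `n` are settled; if `2` is in `S`, the new classes are needed only for those `n`
which have a prime divisor congruent to one modulo four, or which are congruent to seven modulo eight
and modulo which some prime of `S` congruent to one modulo four has Jacobi symbol `-1`.
-/

namespace Pool.Agent.J4.H6.AtticFermatFiniteReduction

open Pool.Agent.H916T

/-- The exponent of two in the order of `p` modulo `q`. -/
noncomputable def twoPart (p q : ℕ) : ℕ := padicValNat 2 (orderOf (p : ZMod q))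

/-- The prime divisors `q` of `n` are congruent to one modulo four, `p` and the odd primes `j` in `S`
not dividing `n` are squares modulo them, for each such `j` the exponent of two in the order of `p`
modulo `j` is at most that for some `q`, and, if two is in `S`, two has odd order modulo all odd primes
in `S`. -/
def SquareSettled (p : ℕ) (S : Finset ℕ) (n : ℕ) : Prop :=
  (∀ q : ℕ, q.Prime → q ∣ n → q % 4 = 1 ∧ IsSquare (p : ZMod q)) ∧
    (∀ j ∈ S, j ≠ 2 → ¬ j ∣ n → (∀ q : ℕ, q.Prime → q ∣ n → IsSquare (j : ZMod q)) ∧
      ∃ q : ℕ, q.Prime ∧ q ∣ n ∧ twoPart p j ≤ twoPart p q) ∧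
    (2 ∈ S → ∀ j ∈ S, j ≠ 2 → Odd (orderOf (2 : ZMod j)))

/-- The number `n` is settled: `-1` is a power of `p` modulo `n`; or `n` is congruent to three modulo
four, `p` and (if it is in `S`) two have Jacobi symbol one modulo `n`, and the odd primes `j` in `S` not
dividing `n` with Jacobi symbol `-1` modulo `n` are congruent to three modulo four; or `md` holds, all
prime divisors of `n` are congruent to three modulo four, and `n` is congruent to one modulo four or
`p` has Jacobi symbol `-1` modulo `n` or two is in `S` and has Jacobi symbol `-1` modulo `n`; or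
`SquareSettled p S n`. -/
def Settled (md : Prop) (p : ℕ) (S : Finset ℕ) (n : ℕ) : Prop :=
  (∃ k : ℕ, (p : ZMod n) ^ k = -1) ∨
  (n % 4 = 3 ∧ jacobiSym p n = 1 ∧ (2 ∈ S → jacobiSym 2 n = 1) ∧
    ∀ j ∈ S, j ≠ 2 → ¬ j ∣ n → jacobiSym j n = -1 → j % 4 = 3) ∨
  (md ∧ (∀ q : ℕ, q.Prime → q ∣ n → q % 4 = 3) ∧
    (n % 4 = 1 ∨ jacobiSym p n = -1 ∨ (2 ∈ S ∧ jacobiSym 2 n = -1))) ∨
  SquareSettled p S n

open scoped Classical in
/-- The squarefree odd numbers greater than one with prime divisors in `S` which are not settled. -/
noncomputable def unsettled (md : Prop) (p : ℕ) (S : Finset ℕ) : Finset ℕ :=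
  (∏ q ∈ S.erase 2, q).divisors.filter fun n => 1 < n ∧ ¬ Settled md p S n

lemma settled_of {md : Prop} {p : ℕ} {S : Finset ℕ} (hS : ∀ q ∈ S, q.Prime)
    {n : ℕ} (h : Settled md p S n) :
    J4.H6.FR.Settled md p (J4.H6.FR.blv S) n := by
  have hlv := J4.H6.FR.lv_blv hS
  have h4 : 2 ∈ S → 4 ∣ J4.H6.FR.blv S := by
    intro h
    unfold J4.H6.FR.blv
    rw [if_pos h]
    exact Dvd.intro _ rfl
  rcases h with ⟨k, hk⟩ | ⟨ha, hb, hc, hd⟩ | ⟨hmd, ha, hb⟩ | ⟨ha, hb, hc⟩
  · refine Or.inl ⟨k, ?_⟩
    rw [← ZMod.natCast_eq_zero_iff]
    push_cast
    rw [hk]; ring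
  · exact Or.inr (Or.inl ⟨ha, hb, fun h => hc (hlv.2 2 Nat.prime_two h),
      fun j hj hjb hj2 => hd j (hlv.2 j hj hjb) hj2⟩)
  · refine Or.inr (Or.inr (Or.inl ⟨hmd, ha, ?_⟩))
    rcases hb with hb | hb | ⟨hb, hc⟩
    · exact Or.inl hb
    · exact Or.inr (Or.inl hb)
    · exact Or.inr (Or.inr ⟨h4 hb, hc⟩)
  · have hv : ∀ q : ℕ, TH540.vv p q = twoPart p q := fun q =>
      Nat.factorization_def _ Nat.prime_two
    have hne2 : ∀ j : ℕ, Odd j → j ≠ 2 := by
      rintro j hj rfl
      exact absurd hj (by decide)
    refine Or.inr (Or.inr (Or.inr ⟨ha, ?_, ?_⟩))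
    · intro j hj hjo hjb hjn
      obtain ⟨h5, q, hq, hqn, h6⟩ := hb j (hlv.2 j hj hjb) (hne2 j hjo) hjn
      exact ⟨h5, q, hq, hqn, by rw [hv, hv]; exact h6⟩
    · intro h j hj hjo hjb
      exact hc (hlv.2 2 Nat.prime_two (Dvd.dvd.trans (by norm_num) h)) j (hlv.2 j hj hjb)
        (hne2 j hjo)

/-- **The reduction to finitely many classes.** -/
theorem main (md : Prop) (p : ℕ) (hp : p.Prime) (S : Finset ℕ) (hS : ∀ q ∈ S, q.Prime)
    (hpS : p ∉ S) :
    ∃ (M : ℕ) (c : ℕ → Multiset (ZMod M)),
      (∃ k : ℕ, M = 2 ^ k * ∏ q ∈ S.erase 2, q ∧ (2 ∉ S → k = 0)) ∧ (∀ n, IsTate p M (c n)) ∧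
      ∀ m : ℕ, 0 < m → (∀ q : ℕ, q.Prime → q ∣ m → q ∈ S) →
        ∀ s : Multiset (ZMod m), IsTate p m s → s ≠ 0 →
          ∃ N : ℕ, 0 < N ∧ p.Coprime N ∧ M ∣ N * m ∧
            Generated (N * m)
              (fun t => SurfaceTate p (N * m) t ∨
                (∃ q : ℕ, q.Prime ∧ q ∣ N * m ∧ Standard q (N * m) t) ∨
                (md ∧ N214.FT.ModularTate p (N * m) t) ∨
                ∃ n ∈ unsettled md p S,
                  t = (c n).map fun a => ((N * m / M * a.val : ℕ) : ZMod (N * m)))
              (s.map fun a => ((N * a.val : ℕ) : ZMod (N * m))) := by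
  classical
  obtain ⟨k, c, hk, hc, H⟩ := J4.H6.FR.main md hp hS hpS
  refine ⟨_, c, ⟨k, rfl, hk⟩, hc, ?_⟩
  intro m hm hmS s hs hne
  obtain ⟨N, hN, hpN, hMN, HG⟩ := H m hm hmS s hs hne
  refine ⟨N, hN, hpN, hMN, H916Z.generated_mono ?_ HG⟩
  rintro t (h | h | h | ⟨n, hn, h⟩)
  · exact Or.inl h
  · exact Or.inr (Or.inl h)
  · exact Or.inr (Or.inr (Or.inl h))
  · refine Or.inr (Or.inr (Or.inr ⟨n, ?_, h⟩))
    unfold J4.H6.FR.Uns at hn
    unfold unsettled
    rw [Finset.mem_filter] at hn ⊢
    exact ⟨hn.1, hn.2.1, fun h' => hn.2.2 (settled_of hS h')⟩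

end Pool.Agent.J4.H6.AtticFermatFiniteReduction
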