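import Pool.Agent.J4.H6.OC.Conv

/-!
# One Hodge class decides the Tate conjecture for Fermat varieties in all characteristics

Let `p` be a prime and `m` prime to `p`. By Weil and Stickelberger the Tate classes of the Fermat
varieties `x_0 ^ m + ... + x_(n+1) ^ m = 0` of even dimension `n` over the finite fields of
characteristic `p` are spanned by the powers of the hyperplane class and by the lines of the Tate
characters of degree `m` with `n + 2` entries.

1. Let `q` be a prime congruent to `3` or `5` modulo `8`. The multiset `cls q` of residues modulo `4 q`
consists of
* the residues which are congruent to `1` modulo `4` and to `x` modulo `q`, `1 ≤ x < q / 2`,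
* the residues `- 4 x`, `q / 4 < x < q / 2`,
* the residue `2 q`, and, if `q` is congruent to `3` modulo `4`, the residue `- q`.
It is a Hodge character of degree `4 q`. For ALL primes `p` and all degrees `m` prime to `p` whose prime
divisors are `2` and `q`, every Tate character of degree `m` in characteristic `p` becomes, after raising
the degree to a suitable multiple prime to `p`, a member of the closure of the characters with four
entries (surfaces), the standard characters of Aoki and the images of `cls q`. So this single Hodge
class decides the Tate conjecture for all Fermat varieties of degree `2 ^ a * q ^ b`, of all dimensions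
and in all characteristics: if its line is algebraic in characteristic zero, or if its reduction modulo
`p` is algebraic, then the Tate conjecture holds for all these varieties in characteristic `p`.

2. The Tate conjecture holds for the Fermat varieties of all dimensions and of all degrees `m` whose
prime divisors are in `{2, 3, 11}` or in `{2, 3, 13}`, in every characteristic `p` prime to `m`: the
Tate characters are generated by surfaces, standard characters and the Tate characters which are the
union of two curve characters (three entries: a Fermat curve; or five entries and a quotient of the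
Fermat threefold whose cohomology of degree three comes from curves), whose lines are algebraic by
Tate's theorem on divisors on products of curves. For `4 ∣ m` this is new; the powers of two are
unbounded.

The proof. Let `V` be one of the Stickelberger functions, `P y = V (1 mod 4, y mod q)` and
`g y = V (0 mod 4, y mod q)`. The distribution relations at two give `P y - P (- y) = g (4 y) - g (2 y)`,
the one at `q` gives the sum of the `P y`, and Gauss' lemma for the prime two gives that the half sum
of `g (4 y) - g (2 y)` is twice a sum of an odd number of values, as two is not a square modulo `q`. So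
the class `cls q` has an odd number of entries of order `q`, and adding it to a Tate character if
necessary makes the number of the entries whose order is a power of `q` even, in every characteristic;
then the parity criterion (`Pool/Agent/H916Y`, `Pool/Agent/TH540`) applies. For `q = 11`, `13` the
support `{3, q}` is treated by explicit surfaces or by quadratic reciprocity, and the classes `cls 11`,
`cls 13` are generated by curve products in characteristic zero.
-/

namespace Pool.Agent.J4.H6.AtticFermatOneHodgeClass

open Pool.Agent.H916T

/-- Surfaces, standard characters, and the images of the character `cls q`. -/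
def OneClassBase (p q M : ℕ) (t : Multiset (ZMod M)) : Prop :=
  SurfaceTate p M t ∨ (∃ r : ℕ, r.Prime ∧ r ∣ M ∧ Standard r M t) ∨
    ∃ k : ℕ, k * (4 * q) = M ∧
      t = (J4.H6.OC.cls q).map fun a => ((k * a.val : ℕ) : ZMod M)

/-- Surfaces, unions of two curve characters, standard characters. -/
def CurveBase (p M : ℕ) (t : Multiset (ZMod M)) : Prop :=
  SurfaceTate p M t ∨ N993.CP.CurveProductTate p M t ∨
    ∃ r : ℕ, r.Prime ∧ r ∣ M ∧ Standard r M t

theorem main :
    (∀ q : ℕ, q.Prime → q % 8 = 3 ∨ q % 8 = 5 →
      H916R2.IsHodge (4 * q) (J4.H6.OC.cls q) ∧
      ∀ p m : ℕ, p.Prime → 0 < m → p.Coprime m → (∀ r : ℕ, r.Prime → r ∣ m → r = 2 ∨ r = q) →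
        ∀ s : Multiset (ZMod m), IsTate p m s → s ≠ 0 →
          ∃ N : ℕ, 0 < N ∧ p.Coprime N ∧
            Generated (N * m) (OneClassBase p q (N * m))
              (s.map fun a => ((N * a.val : ℕ) : ZMod (N * m)))) ∧
    ∀ q : ℕ, q = 11 ∨ q = 13 →
      ∀ p m : ℕ, p.Prime → 0 < m → p.Coprime m →
        (∀ r : ℕ, r.Prime → r ∣ m → r = 2 ∨ r = 3 ∨ r = q) →
        ∀ s : Multiset (ZMod m), IsTate p m s → s ≠ 0 →
          ∃ N : ℕ, 0 < N ∧ p.Coprime N ∧
            Generated (N * m) (CurveBase p (N * m))
              (s.map fun a => ((N * a.val : ℕ) : ZMod (N * m))) := by
  refine ⟨fun q hq h35 => ?_, fun q hq p m hp hm hpm hdeg s hs hne => ?_⟩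
  · have hF : Fact q.Prime := ⟨hq⟩
    refine ⟨(J4.H6.OC.cls_spec h35).1, fun p m hp hm hpm hdeg s hs hne => ?_⟩
    obtain ⟨N, hN, hpN, H⟩ := J4.H6.OC.one_class hp hq h35 hm hpm hdeg hs hne
    refine ⟨N, hN, hpN, H916Z.generated_mono ?_ (H (N * m) rfl)⟩
    rintro t ((ht | ht) | ht)
    · exact Or.inl ht
    · exact Or.inr (Or.inl ht)
    · exact Or.inr (Or.inr ht)
  · obtain ⟨N, hN, hpN, H⟩ := J4.H6.OC.unconditional hp hq hm hpm hdeg hs hne
    exact ⟨N, hN, hpN, H (N * m) rfl⟩

end Pool.Agent.J4.H6.AtticFermatOneHodgeClass
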