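import Pool.Agent.J4.H6.SI.Fin

/-!
# The Tate conjecture for Fermat varieties in characteristics of index dividing four

Let `q` be an odd prime and `p` a prime whose class generates a subgroup of `(ℤ / q)ˣ` of index
dividing four (so `p` is a primitive root modulo `q`, or the square, or the fourth power of one). Let
`m` be a degree prime to `p` all of whose prime divisors are `2` or `q`; if `q` is congruent to `5`
modulo `8`, or to `7` modulo `12`, or if `q` is congruent to `11` modulo `12` and `p` to `2` modulo `3`, the
prime divisor `3` is allowed, too. Then every Tate character of degree `m` in characteristic `p`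
becomes, after raising the degree to a suitable multiple prime to `p`, a member of the closure of the
characters with four entries (surfaces) and of the standard characters of Aoki.

By Weil and Stickelberger the lines of the Tate characters with `n + 2` entries and the powers of the
hyperplane class span the Tate classes of the Fermat variety of degree `m` and dimension `n` over all
finite fields of characteristic `p`; the generators are algebraic (Tate, Shioda and Katsura, Aoki and
Shioda). So the Tate conjecture holds for all the Fermat varieties `x_0 ^ m + ... + x_(n+1) ^ m = 0` of
these degrees `m = 2 ^ a * q ^ b` (or `2 ^ a * 3 ^ c * q ^ b`) and of all dimensions, over all fields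
finitely generated over the prime field with `p` elements. These varieties are not supersingular in
general: for `q` congruent to three modulo four and `p` a square modulo `q`, or `q` congruent to five
modulo eight and `p` a fourth power modulo `q`, no power of `p` is congruent to `-1` modulo `q`.

The new point is the use of the distribution relation at the prime `q` itself: the values of the
Stickelberger functions at the elements of order `4 q` or `8 q` are the same on the cosets of the
group generated by `p`; there are only four (or two) cosets, one of which is represented by `2`
(or `-1`), and the relation gives the even part of the functions, while the relations at two give the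
odd part. This proves new relations between four values.
-/

namespace Pool.Agent.J4.H6.AtticSmallIndex

open Pool.Agent.H916T

/-- All prime divisors of `m` are `2` or `q`, or `3` if `q % 8 = 5`, or `q % 12 = 7`, or `q % 12 = 11` and
`p % 3 = 2`. -/
def GoodDegree (p q m : ℕ) : Prop :=
  ∀ r : ℕ, r.Prime → r ∣ m →
    r = 2 ∨ r = q ∨ (r = 3 ∧ (q % 8 = 5 ∨ q % 12 = 7 ∨ (q % 12 = 11 ∧ p % 3 = 2)))

theorem result (p q m : ℕ) (hp : p.Prime) (hq : q.Prime) (hq2 : q ≠ 2) (hm : 0 < m)
    (hpm : p.Coprime m) (hindex : (q - 1) ∣ 4 * orderOf ((p : ℕ) : ZMod q))
    (hdeg : GoodDegree p q m) (s : Multiset (ZMod m)) (hs : IsTate p m s) (hne : s ≠ 0) :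
    ∃ N : ℕ, 0 < N ∧ p.Coprime N ∧
      Generated (N * m)
        (fun t => SurfaceTate p (N * m) t ∨ ∃ q : ℕ, q.Prime ∧ q ∣ N * m ∧ Standard q (N * m) t)
        (s.map fun a => ((N * a.val : ℕ) : ZMod (N * m))) := by
  obtain ⟨N, hN, hpN, H⟩ := J4.H6.SI.main hp hq hq2 hm hpm hindex hdeg hs hne
  exact ⟨N, hN, hpN, H (N * m) rfl⟩

end Pool.Agent.J4.H6.AtticSmallIndex
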